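import Pool.Agent.Lib.MP_b84ebc_coT.Main

set_option autoImplicit false

/-!
# Three-heap Wythoff: few missing differences, near the golden line, for every `k`
-/

namespace Pool.Agent.Results.MP_b84ebc_co.ThreeTenths

open Pool.Agent.Lib.MP_b84ebc_co

/-- For every `k` there is `K > 0` such that every P-position `(k, B, B + n)` has
`φ * n ≤ B + K * (B + 1) ^ (3 / 10)`, and, for all `1 ≤ L ≤ N`, at most `K * N ^ (13 / 10) / L`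
of the `n < N` have no P-position `(k, B, B + n)` with `k ≤ B` and `|B - φ * n| ≤ K * L`. -/
theorem result (k : ℕ) : ∃ K : ℝ, 0 < K ∧
    (∀ B n : ℕ, IsP (k, B, B + n) →
      Real.goldenRatio * n ≤ B + K * ((B : ℝ) + 1) ^ (3 / 10 : ℝ)) ∧
    ∀ N L : ℕ, 1 ≤ L → L ≤ N →
      ({n : ℕ | n < N ∧ ¬ ∃ B, k ≤ B ∧ IsP (k, B, B + n) ∧
        |(B : ℝ) - Real.goldenRatio * n| ≤ K * L}.ncard : ℝ) * L ≤
        K * (N : ℝ) ^ (13 / 10 : ℝ) := by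
  obtain ⟨K1, hK1, h1⟩ := front_pow k
  obtain ⟨K2, hK2, h2⟩ := main_pow k
  refine ⟨K1 + K2, by positivity, fun B n h => (h1 B n h).trans ?_, fun N L hL hLN => ?_⟩
  · have h3 : (0 : ℝ) ≤ ((B : ℝ) + 1) ^ (3 / 10 : ℝ) := by positivity
    nlinarith
  · have hfin : {n : ℕ | n < N ∧ ¬ ∃ B, k ≤ B ∧ IsP (k, B, B + n) ∧
        |(B : ℝ) - Real.goldenRatio * n| ≤ K2 * L}.Finite :=
      (Set.finite_lt_nat N).subset fun n hn => hn.1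
    have hsub : {n : ℕ | n < N ∧ ¬ ∃ B, k ≤ B ∧ IsP (k, B, B + n) ∧
        |(B : ℝ) - Real.goldenRatio * n| ≤ (K1 + K2) * L} ⊆
        {n : ℕ | n < N ∧ ¬ ∃ B, k ≤ B ∧ IsP (k, B, B + n) ∧
        |(B : ℝ) - Real.goldenRatio * n| ≤ K2 * L} := by
      rintro n ⟨hn, hB⟩
      refine ⟨hn, fun ⟨B, hkB, hP, hab⟩ => hB ⟨B, hkB, hP, hab.trans ?_⟩⟩
      have hL0 : (0 : ℝ) ≤ L := Nat.cast_nonneg L
      nlinarith
    have h3 := Set.ncard_le_ncard hsub hfin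
    have h4 : ({n : ℕ | n < N ∧ ¬ ∃ B, k ≤ B ∧ IsP (k, B, B + n) ∧
        |(B : ℝ) - Real.goldenRatio * n| ≤ (K1 + K2) * L}.ncard : ℝ) ≤
        ({n : ℕ | n < N ∧ ¬ ∃ B, k ≤ B ∧ IsP (k, B, B + n) ∧
        |(B : ℝ) - Real.goldenRatio * n| ≤ K2 * L}.ncard : ℝ) := by exact_mod_cast h3
    have hL0 : (0 : ℝ) ≤ L := Nat.cast_nonneg L
    have h5 := h2 N L hL hLN
    have h6 : (0 : ℝ) ≤ (N : ℝ) ^ (13 / 10 : ℝ) := by positivity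
    calc _ ≤ ({n : ℕ | n < N ∧ ¬ ∃ B, k ≤ B ∧ IsP (k, B, B + n) ∧
        |(B : ℝ) - Real.goldenRatio * n| ≤ K2 * L}.ncard : ℝ) * L :=
          mul_le_mul_of_nonneg_right h4 hL0
      _ ≤ K2 * (N : ℝ) ^ (13 / 10 : ℝ) := h5
      _ ≤ (K1 + K2) * (N : ℝ) ^ (13 / 10 : ℝ) := by nlinarith

end Pool.Agent.Results.MP_b84ebc_co.ThreeTenths
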